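import Pool.Agent.H91.SV.Targets

/-!
# Board sv_modules (MP_c62aed_lc), module CELB
-/

set_option autoImplicit false

namespace Pool.Agent.H39.SV

open Finset Matrix Pool.Agent.H91.SV

theorem pf_CELB (hC : S_CEL) (hX : S_XXB) : S_CELB := by
  intro p q N h hp e0 W θ hq he0 he1 hpq hW hθ D Mx hD hdeg r f g hrW hf hg A X m hm hA
  obtain ⟨e, σ, h1, h2, h3, hXX⟩ := hX p q N h e0 W θ hp.out.one_le hq he0 he1 hpq hW hθ
  refine hC p q N h e σ h1 h2 h3 hq D Mx hD hdeg r f g hf hg A X m _ hm hA ?_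
  haveI : NeZero q := ⟨by omega⟩
  have hcT : (0 : ℝ) < (Fintype.card (Fin N → Fin q → ZMod p) : ℝ) := by
    exact_mod_cast Fintype.card_pos
  have hcX : (0 : ℝ) ≤ (Fintype.card (Fin N → ZMod p × Fin q) : ℝ) := Nat.cast_nonneg _
  have hsh : 0 ≤ H43.PS.share A := by
    unfold H43.PS.share
    positivity
  have hshc : H43.PS.share A * (Fintype.card (Fin N → Fin q → ZMod p) : ℝ) = A.card := by
    unfold H43.PS.share
    exact div_mul_cancel₀ _ hcT.ne'
  have key := hXX r m (H43.PS.share A) (Nat.cast_nonneg _) hrW hm.le hsh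
  calc H43.PS.XX p q e σ r (2 * m) (H43.PS.share A * (r : ℝ) ^ e) N h *
      ((Fintype.card (Fin N → Fin q → ZMod p) : ℝ) *
        Fintype.card (Fin N → ZMod p × Fin q))
      ≤ kc p q N h e0 W θ * m * r * (H43.PS.share A + θ) *
          ((Fintype.card (Fin N → Fin q → ZMod p) : ℝ) *
            Fintype.card (Fin N → ZMod p × Fin q)) :=
        mul_le_mul_of_nonneg_right key (mul_nonneg hcT.le hcX)
    _ = kc p q N h e0 W θ * m * r *
          (H43.PS.share A * (Fintype.card (Fin N → Fin q → ZMod p) : ℝ) +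
            θ * Fintype.card (Fin N → Fin q → ZMod p)) *
          Fintype.card (Fin N → ZMod p × Fin q) := by ring
    _ = kc p q N h e0 W θ * m * r * (A.card + θ * Fintype.card (Fin N → Fin q → ZMod p)) *
        Fintype.card (Fin N → ZMod p × Fin q) := by rw [hshc]

end Pool.Agent.H39.SV
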